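import Mathlib

namespace Pool.Agent.Results.MP_091b59_co.Bound

open Finset Polynomial

def sums {V : Type} (G : SimpleGraph V) (f : V → ℤ) : Set ℤ := {s | ∃ u v, G.Adj u v ∧ s = f u + f v}

def Excl {V : Type} (G : SimpleGraph V) (r : ℕ) : Prop :=
  ∃ g : V ⊕ Fin r → ℤ, Function.Injective g ∧ (∀ x, 0 < g x) ∧
    (∀ x y, x ≠ y → ((G ⊕g ⊥).Adj x y ↔ ∃ w, g x + g y = g w)) ∧
    ∀ u v, G.Adj u v → ∃ i, g (.inl u) + g (.inl v) = g (.inr i)

theorem excl {V : Type} [Fintype V] (G : SimpleGraph V) (f : V → ℤ) (hf : Function.Injective f)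
    (h : ∀ u v a b, u ≠ v → G.Adj a b → f u + f v = f a + f b → G.Adj u v) (T : Finset ℤ)
    (hT : ∀ s, s ∈ T ↔ s ∈ sums G f) : Excl G #T := by
  obtain ⟨B, hB⟩ := Finite.exists_le fun v => -f v
  have e (i : Fin #T) := (hT _).1 (T.equivFin.symm i).2
  refine ⟨Sum.elim (fun v => 4 * (f v + B) + 1) fun i => 4 * (T.equivFin.symm i + 2 * B) + 2,
    ?_, ?_, ?_, fun u v a => ⟨T.equivFin ⟨_, (hT _).2 ⟨u, v, a, rfl⟩⟩, by simp; ring⟩⟩
  · rintro (u | i) (v | j) e <;> simp only [Sum.elim_inl, Sum.elim_inr] at e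
    · rw [hf (by omega : f u = f v)]
    · omega
    · omega
    · rw [T.equivFin.symm.injective (Subtype.ext (by omega) : T.equivFin.symm i = T.equivFin.symm j)]
  · rintro (u | i) <;> simp only [Sum.elim_inl, Sum.elim_inr]
    · linarith [hB u]
    · obtain ⟨a, b, -, e⟩ := e i
      linarith [hB a, hB b]
  · rintro (u | i) (v | j) n <;>
      simp only [SimpleGraph.sum_adj, Sum.exists, Sum.elim_inl, Sum.elim_inr, SimpleGraph.bot_adj,
        false_iff, not_or, not_exists]
    · refine ⟨fun a => .inr ⟨T.equivFin ⟨_, (hT _).2 ⟨u, v, a, rfl⟩⟩, by simp; ring⟩, ?_⟩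
      rintro (⟨w, e⟩ | ⟨i, e'⟩)
      · omega
      · obtain ⟨a, b, c, d⟩ := e i
        exact h u v a b (fun e => n (e ▸ rfl)) c (by omega)
    all_goals constructor <;> intro <;> omega

theorem result (C : ℕ) (V : Type) [Fintype V] (G : SimpleGraph V) (f : V → ℤ)
    (hf : Function.Injective f) (hC : (sums G f).ncard ≤ C) : ∃ r ≤ C * 4 ^ C, Excl G r := by
  classical
  let S := (univ.filter fun p : V × V => G.Adj p.1 p.2).image fun p => f p.1 + f p.2
  have hS (s : ℤ) : s ∈ S ↔ s ∈ sums G f := by simp [S, sums, eq_comm]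
  have cS : #S ≤ C := by rwa [← Set.ncard_coe_finset, Set.ext hS]
  let t (v : V) : Finset ℤ := S.filter fun s => ∃ u, G.Adj v u ∧ s = f v + f u
  let q (A : Finset ℤ) : ℤ[X] := ∑ s ∈ A, X ^ (Encodable.encode s + 1)
  have q0 (A : Finset ℤ) : (q A).coeff 0 = 0 := by simp [q]
  have q1 (A : Finset ℤ) (s : ℤ) : (q A).coeff (Encodable.encode s + 1) = if s ∈ A then 1 else 0 := by
    simp [q, coeff_X_pow]
  let L (v : V) : ℤ[X] := Polynomial.C (f v) + q (t v)
  obtain ⟨x, hx⟩ : ∃ x : ℤ, ∀ u v a b, L u + L v ≠ L a + L b →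
      (L u).eval x + (L v).eval x ≠ (L a).eval x + (L b).eval x := by
    let D (p : V × V × V × V) := L p.1 + L p.2.1 - (L p.2.2.1 + L p.2.2.2)
    obtain ⟨x, hx⟩ := Infinite.exists_notMem_finset
      (univ.biUnion fun p => (D p).roots.toFinset)
    refine ⟨x, fun u v a b n e => hx (mem_biUnion.2 ⟨(u, v, a, b), mem_univ _, ?_⟩)⟩
    simp [D, sub_eq_zero, n, e]
  have c0 {u v a b : V} (e : L u + L v = L a + L b) : f u + f v = f a + f b := by
    simpa [L, q0] using congrArg (coeff · 0) e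
  let g (v : V) := (L v).eval x
  let T := (univ.filter fun p : V × V => G.Adj p.1 p.2).image fun p => g p.1 + g p.2
  refine ⟨#T, ?_, excl G g (fun u v e => hf ?_) (fun u v a b n h e => ?_) T
    (by simp [T, sums, eq_comm])⟩
  · refine le_trans (card_le_card (t := (S ×ˢ S.powerset ×ˢ S.powerset).image
      fun p => p.1 + (q p.2.1).eval x + (q p.2.2).eval x) fun s hs => ?_) (card_image_le.trans ?_)
    · obtain ⟨p, hp, rfl⟩ := mem_image.1 hs
      refine mem_image.2 ⟨(f p.1 + f p.2, t p.1, t p.2), ?_, by simp [g, L]; ring⟩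
      simp only [mem_product, mem_powerset]
      exact ⟨mem_image_of_mem _ hp, filter_subset _ _, filter_subset _ _⟩
    · rw [card_product, card_product, card_powerset, ← mul_pow]
      gcongr <;> norm_num
  · have := c0 (not_not.1 fun n => hx u u v v n (by rw [show (L u).eval x = _ from e]))
    omega
  · have e1 := not_not.1 fun n => hx u v a b n e
    have e2 := congrArg (coeff · (Encodable.encode (f a + f b) + 1)) e1
    have m := (hS _).2 ⟨a, b, h, rfl⟩
    have ma : f a + f b ∈ t a := mem_filter.2 ⟨m, b, h, rfl⟩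
    have mb : f a + f b ∈ t b := mem_filter.2 ⟨m, a, h.symm, add_comm _ _⟩
    simp only [L, coeff_add, coeff_C_succ, q1, ma, mb, if_true] at e2
    have : f a + f b ∈ t u := by
      by_contra c
      split_ifs at e2 <;> omega
    obtain ⟨-, w, hw, e3⟩ := mem_filter.1 this
    rwa [hf (by linarith [c0 e1] : f v = f w)]

end Pool.Agent.Results.MP_091b59_co.Bound
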